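import Mathlib

/-!
# Smoothness of the pull-back of alternating forms, as a function of the form and the map
-/

set_option autoImplicit false

namespace Pool.Agent.SIQ.H7

variable {E F : Type*} [NormedAddCommGroup E] [NormedSpace ℝ E] [NormedAddCommGroup F]
  [NormedSpace ℝ F]

/-- averaged alternatization -/
noncomputable def altLin (E : Type*) [NormedAddCommGroup E] [NormedSpace ℝ E] (k : ℕ) :
    ContinuousMultilinearMap ℝ (fun _ : Fin k => E) ℝ →ₗ[ℝ] (E [⋀^Fin k]→L[ℝ] ℝ) where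
  toFun f := ((k.factorial : ℕ) : ℝ)⁻¹ • f.alternatization
  map_add' f g := by
    rw [map_add, smul_add]
  map_smul' c f := by
    ext v
    simp only [ContinuousAlternatingMap.smul_apply, RingHom.id_apply,
      ContinuousMultilinearMap.alternatization_apply_apply, smul_apply]
    rw [smul_comm c]
    congr 1
    rw [Finset.smul_sum]
    refine Finset.sum_congr rfl fun σ _ => ?_
    rw [smul_comm]

theorem altLin_apply (k : ℕ) (f : ContinuousMultilinearMap ℝ (fun _ : Fin k => E) ℝ)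
    (v : Fin k → E) : altLin E k f v =
      ((k.factorial : ℕ) : ℝ)⁻¹ * ∑ σ : Equiv.Perm (Fin k), Equiv.Perm.sign σ • f (v ∘ σ) := by
  show (((k.factorial : ℕ) : ℝ)⁻¹ • f.alternatization) v = _
  rw [ContinuousAlternatingMap.smul_apply, ContinuousMultilinearMap.alternatization_apply_apply,
    smul_eq_mul]

theorem altLin_bound (k : ℕ) (f : ContinuousMultilinearMap ℝ (fun _ : Fin k => E) ℝ) :
    ‖altLin E k f‖ ≤ 1 * ‖f‖ := by
  refine ContinuousAlternatingMap.opNorm_le_bound _ (by positivity) fun v => ?_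
  rw [altLin_apply, norm_mul, Real.norm_of_nonneg (by positivity), one_mul]
  have hk : (0 : ℝ) < ((k.factorial : ℕ) : ℝ) := by exact_mod_cast k.factorial_pos
  rw [inv_mul_le_iff₀ hk]
  refine (norm_sum_le _ _).trans ?_
  have h : ∀ σ ∈ (Finset.univ : Finset (Equiv.Perm (Fin k))),
      ‖Equiv.Perm.sign σ • f (v ∘ σ)‖ ≤ ‖f‖ * ∏ i, ‖v i‖ := by
    intro σ _
    have h1 : ‖Equiv.Perm.sign σ • f (v ∘ σ)‖ = ‖f (v ∘ σ)‖ := by
      rcases Int.units_eq_one_or (Equiv.Perm.sign σ) with h | h <;> rw [h] <;> simp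
    rw [h1]
    refine (f.le_opNorm _).trans (le_of_eq ?_)
    congr 1
    exact Equiv.prod_comp σ (fun i => ‖v i‖)
  refine (Finset.sum_le_sum h).trans ?_
  rw [Finset.sum_const, Finset.card_univ, Fintype.card_perm, Fintype.card_fin, nsmul_eq_mul]

/-- averaged alternatization, continuous -/
noncomputable def altCLM (E : Type*) [NormedAddCommGroup E] [NormedSpace ℝ E] (k : ℕ) :
    ContinuousMultilinearMap ℝ (fun _ : Fin k => E) ℝ →L[ℝ] (E [⋀^Fin k]→L[ℝ] ℝ) :=
  (altLin E k).mkContinuous 1 (altLin_bound k)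

theorem altCLM_self (k : ℕ) (a : E [⋀^Fin k]→L[ℝ] ℝ) :
    altCLM E k a.toContinuousMultilinearMap = a := by
  ext v
  show altLin E k a.toContinuousMultilinearMap v = a v
  rw [altLin_apply]
  have hk : ((k.factorial : ℕ) : ℝ) ≠ 0 := by exact_mod_cast k.factorial_ne_zero
  have h : ∀ σ ∈ (Finset.univ : Finset (Equiv.Perm (Fin k))),
      Equiv.Perm.sign σ • a.toContinuousMultilinearMap (v ∘ σ) = a v := by
    intro σ _
    have h1 : a.toContinuousMultilinearMap (v ∘ σ) = Equiv.Perm.sign σ • a v :=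
      a.toAlternatingMap.map_perm v σ
    rw [h1, smul_smul]
    rcases Int.units_eq_one_or (Equiv.Perm.sign σ) with h | h <;> rw [h] <;> simp
  rw [Finset.sum_congr rfl h, Finset.sum_const, Finset.card_univ, Fintype.card_perm,
    Fintype.card_fin, nsmul_eq_mul, inv_mul_cancel_left₀ hk]

/-- the pull-back is a smooth function of the form and the linear map -/
theorem contDiff_pull (k : ℕ) (m : WithTop ℕ∞) :
    ContDiff ℝ m (fun p : (F [⋀^Fin k]→L[ℝ] ℝ) × (E →L[ℝ] F) =>
      p.1.compContinuousLinearMap p.2) := by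
  have h1 : ContDiff ℝ m (fun p : (F [⋀^Fin k]→L[ℝ] ℝ) × (E →L[ℝ] F) =>
      (ContinuousMultilinearMap.compContinuousLinearMapContinuousMultilinear ℝ
        (fun _ : Fin k => E) (fun _ => F) ℝ (fun _ => p.2))) :=
    (ContinuousMultilinearMap.contDiff _).comp (contDiff_pi.mpr fun _ => contDiff_snd)
  have h2 : ContDiff ℝ m (fun p : (F [⋀^Fin k]→L[ℝ] ℝ) × (E →L[ℝ] F) =>
      ContinuousAlternatingMap.toContinuousMultilinearMapCLM ℝ p.1) :=
    (ContinuousAlternatingMap.toContinuousMultilinearMapCLM ℝ :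
      (F [⋀^Fin k]→L[ℝ] ℝ) →L[ℝ]
        ContinuousMultilinearMap ℝ (fun _ : Fin k => F) ℝ).contDiff.comp contDiff_fst
  have h3 := (altCLM E k).contDiff.comp (h1.clm_apply h2)
  have h5 : (fun p : (F [⋀^Fin k]→L[ℝ] ℝ) × (E →L[ℝ] F) => p.1.compContinuousLinearMap p.2) =
      (altCLM E k) ∘ fun p : (F [⋀^Fin k]→L[ℝ] ℝ) × (E →L[ℝ] F) =>
        (ContinuousMultilinearMap.compContinuousLinearMapContinuousMultilinear ℝ
          (fun _ : Fin k => E) (fun _ => F) ℝ (fun _ => p.2))
          (ContinuousAlternatingMap.toContinuousMultilinearMapCLM ℝ p.1) := by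
    funext p
    exact (altCLM_self k (p.1.compContinuousLinearMap p.2)).symm.trans rfl
  rw [h5]
  exact h3

theorem continuous_pull (k : ℕ) :
    Continuous (fun p : (F [⋀^Fin k]→L[ℝ] ℝ) × (E →L[ℝ] F) =>
      p.1.compContinuousLinearMap p.2) :=
  (contDiff_pull k 0).continuous

end Pool.Agent.SIQ.H7
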