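import Pool.Agent.Helper15_SIQ.Stmts

/-!
# MP_021b97_an, Q1: module QUM (measure preserving maps)
-/

set_option autoImplicit false

open MeasureTheory Filter Topology

namespace Pool.Agent.SIQ.H7

open Pool.Agent.SIU Pool.Agent.SIQ

/-- the square of the Euclidean norm -/
noncomputable def sn (z : E6) : ℝ := ∑ i, nn z i

theorem sn_eq (z : E6) : sn z = ∑ m, ‖z m‖ ^ 2 := by
  unfold sn nn
  rw [Fin.sum_univ_three]
  simp only [Fin.sum_univ_succ, Finset.univ_eq_empty, Finset.sum_empty]
  rw [lo0, lo1, lo2, hi0, hi1, hi2]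
  show _ = ‖z 0‖ ^ 2 + (‖z 1‖ ^ 2 + (‖z 2‖ ^ 2 + (‖z 3‖ ^ 2 + (‖z 4‖ ^ 2 + (‖z 5‖ ^ 2 + 0)))))
  ring

theorem continuous_sn : Continuous sn := by
  unfold sn
  exact continuous_finsetSum _ fun i _ => continuous_nn i

theorem sn_zero : sn 0 = 0 := by
  rw [sn_eq]
  simp

theorem sn_pos {z : E6} (hz : z ≠ 0) : 0 < sn z := by
  rw [sn_eq]
  obtain ⟨m, hm⟩ := Function.ne_iff.mp hz
  have h1 : 0 < ‖z m‖ ^ 2 := pow_pos (norm_pos_iff.mpr hm) 2
  exact lt_of_lt_of_le h1 (Finset.single_le_sum (f := fun m => ‖z m‖ ^ 2)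
    (fun i _ => sq_nonneg _) (Finset.mem_univ m))

/-- the unit ball -/
def Bl : Set E6 := {z | sn z ≤ 1}

theorem Bl_fin : volume Bl < ⊤ := by
  apply Bornology.IsBounded.measure_lt_top
  rw [isBounded_iff_forall_norm_le]
  refine ⟨1, fun z hz => ?_⟩
  rw [pi_norm_le_iff_of_nonneg zero_le_one]
  intro m
  have h1 : ‖z m‖ ^ 2 ≤ sn z := by
    rw [sn_eq]
    exact Finset.single_le_sum (f := fun m => ‖z m‖ ^ 2) (fun i _ => sq_nonneg _)
      (Finset.mem_univ m)
  have h2 : sn z ≤ 1 := hz
  exact (sq_le_one_iff₀ (norm_nonneg _)).mp (h1.trans h2)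

theorem Bl_pos : 0 < volume Bl := by
  have h1 : IsOpen {z : E6 | sn z < 1} := isOpen_lt continuous_sn continuous_const
  have h2 : ({z : E6 | sn z < 1}).Nonempty := ⟨0, by
    show sn 0 < 1
    rw [sn_zero]
    exact one_pos⟩
  exact lt_of_lt_of_le (h1.measure_pos volume h2) (measure_mono fun z hz => by
    have h3 : sn z < 1 := hz
    exact h3.le)

theorem Bl_meas : MeasurableSet Bl :=
  (isClosed_le continuous_sn continuous_const).measurableSet

/-- real linear maps which preserve the Euclidean norm preserve the volume -/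
theorem mp_of_sn (L : E6 →ₗ[ℝ] E6) (hL : ∀ z, sn (L z) = sn z) :
    MeasurePreserving (fun z => L z) := by
  have hcont : Continuous (fun z => L z) := L.continuous_of_finiteDimensional
  have hinj : Function.Injective L := by
    rw [← LinearMap.ker_eq_bot, LinearMap.ker_eq_bot']
    intro z hz
    by_contra hne
    have h1 := sn_pos hne
    rw [← hL, hz, sn_zero] at h1
    exact lt_irrefl _ h1
  have hdet : LinearMap.det L ≠ 0 := by
    have h1 : LinearMap.ker L = ⊥ := LinearMap.ker_eq_bot.mpr hinj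
    intro h0
    exact (LinearMap.bot_lt_ker_of_det_eq_zero h0).ne' h1
  have hmap := Measure.map_linearMap_addHaar_eq_smul_addHaar (μ := (volume : Measure E6)) hdet
  have hB : (fun z => L z) ⁻¹' Bl = Bl := by
    ext z
    show sn (L z) ≤ 1 ↔ sn z ≤ 1
    rw [hL]
  have h2 : Measure.map (fun z => L z) volume Bl = volume Bl := by
    rw [Measure.map_apply hcont.measurable Bl_meas, hB]
  have h3 : ENNReal.ofReal |(LinearMap.det L)⁻¹| = 1 := by
    have h4 : Measure.map (fun z => L z) volume Bl =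
        ENNReal.ofReal |(LinearMap.det L)⁻¹| * volume Bl := by
      show Measure.map (⇑L) volume Bl = _
      rw [hmap, Measure.smul_apply, smul_eq_mul]
    rw [h2] at h4
    have h5 : ENNReal.ofReal |(LinearMap.det L)⁻¹| * volume Bl = 1 * volume Bl := by
      rw [one_mul]
      exact h4.symm
    exact (ENNReal.mul_left_inj Bl_pos.ne' Bl_fin.ne).mp h5
  refine ⟨hcont.measurable, ?_⟩
  show Measure.map (⇑L) volume = volume
  rw [hmap, h3, one_smul]

/-- `g ↦ g w` -/
noncomputable def Rw (w : E6) : E6 →ₗ[ℝ] E6 where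
  toFun g := qm g w
  map_add' g h := by
    apply ext6 <;> intro i <;> simp only [Pi.add_apply, qm_lo, qm_hi, map_add] <;> ring
  map_smul' t g := by
    apply ext6 <;> intro i <;>
      simp only [Pi.smul_apply, qm_lo, qm_hi, RingHom.id_apply, Complex.real_smul, map_mul,
        Complex.conj_ofReal] <;> ring

/-- `g ↦ h g` -/
noncomputable def Lh (h : E6) : E6 →ₗ[ℝ] E6 where
  toFun g := qm h g
  map_add' g w := by
    apply ext6 <;> intro i <;> simp only [Pi.add_apply, qm_lo, qm_hi] <;> ring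
  map_smul' t g := by
    apply ext6 <;> intro i <;>
      simp only [Pi.smul_apply, qm_lo, qm_hi, RingHom.id_apply, Complex.real_smul] <;> ring

/-- quaternion conjugation, linear -/
noncomputable def cqL : E6 →ₗ[ℝ] E6 where
  toFun g := cq g
  map_add' g h := by
    apply ext6 <;> intro i <;> simp only [Pi.add_apply, cq_lo, cq_hi, map_add] <;> ring
  map_smul' t g := by
    apply ext6 <;> intro i <;>
      simp only [Pi.smul_apply, cq_lo, cq_hi, RingHom.id_apply, Complex.real_smul, map_mul,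
        Complex.conj_ofReal] <;> ring

/-- the torus action, linear over `ℝ` -/
noncomputable def acL (c : C3) : E6 →ₗ[ℝ] E6 where
  toFun z := X1.act c z
  map_add' g h := by
    apply ext6 <;> intro i <;> simp only [Pi.add_apply, act1_lo, act1_hi] <;> ring
  map_smul' t g := by
    apply ext6 <;> intro i <;>
      simp only [Pi.smul_apply, act1_lo, act1_hi, RingHom.id_apply, Complex.real_smul] <;> ring

theorem null_U : volume (X1.Uᶜ) = 0 := by
  have hsub : (X1.Uᶜ) ⊆ ⋃ i : Fin 3, {z : E6 | z (lo i) = 0} := by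
    intro z hz
    rw [Set.mem_compl_iff, mem_U1] at hz
    push Not at hz
    obtain ⟨i, h1, _⟩ := hz
    exact Set.mem_iUnion.mpr ⟨i, h1⟩
  refine measure_mono_null hsub (measure_iUnion_null fun i => ?_)
  set p : E6 →ₗ[ℝ] ℂ := (LinearMap.proj (lo i) : E6 →ₗ[ℝ] ℂ) with hp
  have h1 : {z : E6 | z (lo i) = 0} = (LinearMap.ker p : Set E6) := by
    ext z
    rfl
  rw [h1]
  refine Measure.addHaar_submodule volume (LinearMap.ker p) fun htop => ?_
  have h2 : (fun _ => 1 : E6) ∈ LinearMap.ker p := by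
    rw [htop]
    trivial
  have h3 : (1 : ℂ) = 0 := h2
  exact one_ne_zero h3

theorem integrable_gauss : Integrable (fun g : E6 => Real.exp (-∑ i, nn g i)) := by
  have h1 : Integrable (fun z : ℂ => Real.exp (-‖z‖ ^ 2)) := by
    have h2 := GaussianFourier.integrable_cexp_neg_mul_sq_norm_add (V := ℂ) (b := 1)
      (by simp) 0 0
    refine (h2.norm).congr (Eventually.of_forall fun z => ?_)
    show ‖Complex.exp _‖ = _
    rw [Complex.norm_exp]
    congr 1
    simp [← Complex.ofReal_pow]
  have h3 : Integrable (fun g : E6 => ∏ m, Real.exp (-‖g m‖ ^ 2)) :=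
    Integrable.fintype_prod (f := fun _ (z : ℂ) => Real.exp (-‖z‖ ^ 2)) fun _ => h1
  refine h3.congr (Eventually.of_forall fun g => ?_)
  show ∏ m, Real.exp (-‖g m‖ ^ 2) = Real.exp (-∑ i, nn g i)
  rw [← Real.exp_sum]
  congr 1
  rw [Finset.sum_neg_distrib]
  congr 1
  exact (sn_eq g).symm

theorem qum (hqua : QuaStmt) : QumStmt := by
  obtain ⟨q1, q2, q3, q4, q5, q6, q7, q8, q9, q10, q11, q12, q13⟩ := hqua
  have hR : ∀ w ∈ M1, MeasurePreserving (fun g : E6 => qm g w) := by
    intro w hw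
    refine mp_of_sn (Rw w) fun g => ?_
    show ∑ i, nn (qm g w) i = ∑ i, nn g i
    refine Finset.sum_congr rfl fun i _ => ?_
    rw [q1, hw i, mul_one]
  have hL : ∀ h ∈ M1, MeasurePreserving (fun g : E6 => qm h g) := by
    intro h hh
    refine mp_of_sn (Lh h) fun g => ?_
    show ∑ i, nn (qm h g) i = ∑ i, nn g i
    refine Finset.sum_congr rfl fun i _ => ?_
    rw [q1, hh i, one_mul]
  refine ⟨hR, hL, ?_, ?_, ?_, null_U, integrable_gauss⟩
  · refine mp_of_sn cqL fun g => ?_
    show ∑ i, nn (cq g) i = ∑ i, nn g i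
    exact Finset.sum_congr rfl fun i _ => q13 g i
  · intro h hh
    have h1 : cq h ∈ M1 := by
      intro i
      rw [q13]
      exact hh i
    exact (hL h hh).comp (hR (cq h) h1)
  · intro c hc
    refine mp_of_sn (acL c) fun g => ?_
    show ∑ i, nn (X1.act c g) i = ∑ i, nn g i
    refine Finset.sum_congr rfl fun i _ => ?_
    rw [nn_act, hc i, one_pow, one_mul]

end Pool.Agent.SIQ.H7
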