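import Pool.Agent.Helper15_SIQ.Stmts
import Pool.Agent.Helper7_SIQ.Pull

/-!
# MP_021b97_an, Q1: module CHT (forms in the affine chart)
-/

set_option autoImplicit false

open MeasureTheory Filter Topology

namespace Pool.Agent.SIQ.H7

open Pool.Agent.SIU Pool.Agent.SIQ

/-- derivative of `chp` -/
noncomputable def chL (z : E6) : E6 →L[ℂ] C3 :=
  ContinuousLinearMap.pi fun i => (z (hi i))⁻¹ • (ContinuousLinearMap.proj (lo i) : E6 →L[ℂ] ℂ) -
    (z (lo i) / z (hi i) ^ 2) • (ContinuousLinearMap.proj (hi i) : E6 →L[ℂ] ℂ)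

theorem chL_apply (z v : E6) (i : Fin 3) :
    chL z v i = (z (hi i))⁻¹ * v (lo i) - (z (lo i) / z (hi i) ^ 2) * v (hi i) := by
  simp [chL]

theorem hasFDerivAt_chp {z : E6} (hz : ∀ i, z (hi i) ≠ 0) : HasFDerivAt chp (chL z) z := by
  rw [hasFDerivAt_pi']
  intro i
  have h1 : HasFDerivAt (fun w : E6 => w (lo i)) (ContinuousLinearMap.proj (lo i) : E6 →L[ℂ] ℂ) z :=
    hasFDerivAt_apply (lo i) z
  have h2 : HasFDerivAt (fun w : E6 => w (hi i)) (ContinuousLinearMap.proj (hi i) : E6 →L[ℂ] ℂ) z :=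
    hasFDerivAt_apply (hi i) z
  have h5 : HasFDerivAt (fun w : E6 => (w (hi i))⁻¹)
      ((-(z (hi i) ^ 2)⁻¹) • (ContinuousLinearMap.proj (hi i) : E6 →L[ℂ] ℂ)) z :=
    (hasDerivAt_inv (hz i)).comp_hasFDerivAt z h2
  have h3 := h1.mul h5
  have h4 : (fun w : E6 => chp w i) = fun w : E6 => w (lo i) * (w (hi i))⁻¹ := by
    funext w
    exact div_eq_mul_inv _ _
  rw [h4]
  refine h3.congr_fderiv ?_
  ext v
  simp [chL]
  ring

theorem hasFDerivAt_chp_real {z : E6} (hz : ∀ i, z (hi i) ≠ 0) :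
    HasFDerivAt chp ((chL z).restrictScalars ℝ) z :=
  (hasFDerivAt_chp hz).restrictScalars ℝ

theorem fderiv_chp {z : E6} (hz : ∀ i, z (hi i) ≠ 0) :
    fderiv ℝ chp z = (chL z).restrictScalars ℝ :=
  (hasFDerivAt_chp_real hz).fderiv

/-- the domain of the chart -/
def Ch : Set E6 := {z | ∀ i, z (hi i) ≠ 0}

theorem isOpen_Ch : IsOpen Ch := by
  have h : Ch = ⋂ i, {z : E6 | z (hi i) ≠ 0} := by
    ext z
    rw [Set.mem_iInter]
    rfl
  rw [h]
  exact isOpen_iInter_of_finite fun i => isOpen_ne.preimage (continuous_apply (hi i))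

theorem contDiffOn_chp : ContDiffOn ℝ ((⊤ : ℕ∞) : WithTop ℕ∞) chp Ch := by
  rw [contDiffOn_pi]
  intro i
  have h1 : ContDiff ℝ ((⊤ : ℕ∞) : WithTop ℕ∞) (fun w : E6 => w (lo i)) :=
    contDiff_apply ℝ ℂ (lo i)
  have h2 : ContDiff ℝ ((⊤ : ℕ∞) : WithTop ℕ∞) (fun w : E6 => w (hi i)) :=
    contDiff_apply ℝ ℂ (hi i)
  have h3 : (fun w : E6 => chp w i) = fun w : E6 => w (lo i) * (w (hi i))⁻¹ := by
    funext w
    exact div_eq_mul_inv _ _
  rw [h3]
  exact h1.contDiffOn.mul (h2.contDiffOn.inv fun w hw => hw i)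

theorem contDiffOn_fderiv_chp : ContDiffOn ℝ ((⊤ : ℕ∞) : WithTop ℕ∞) (fderiv ℝ chp) Ch :=
  contDiffOn_chp.fderiv_of_isOpen isOpen_Ch (by simp)

theorem chf_of {l : ℕ} (γ : C3 → Alt 3 l) {z : E6} (hz : z ∈ Ch) :
    chf γ z = (γ (chp z)).compContinuousLinearMap (fderiv ℝ chp z) := if_pos hz

theorem chf_not {l : ℕ} (γ : C3 → Alt 3 l) {z : E6} (hz : z ∉ Ch) : chf γ z = 0 := if_neg hz

theorem continuousOn_chf_Ch {l : ℕ} {γ : C3 → Alt 3 l} (hγ : Continuous γ) :
    ContinuousOn (chf γ) Ch := by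
  have h1 : ContinuousOn (fun z : E6 => (γ (chp z), fderiv ℝ chp z)) Ch :=
    (hγ.comp_continuousOn contDiffOn_chp.continuousOn).prodMk contDiffOn_fderiv_chp.continuousOn
  have h2 := (continuous_pull (E := E6) (F := C3) l).comp_continuousOn h1
  exact h2.congr fun z hz => chf_of γ hz

theorem contDiffOn_chf_Ch {l : ℕ} {γ : C3 → Alt 3 l}
    (hγ : ContDiff ℝ ((⊤ : ℕ∞) : WithTop ℕ∞) γ) :
    ContDiffOn ℝ ((⊤ : ℕ∞) : WithTop ℕ∞) (chf γ) Ch := by
  have h1 : ContDiffOn ℝ ((⊤ : ℕ∞) : WithTop ℕ∞) (fun z : E6 => (γ (chp z), fderiv ℝ chp z)) Ch :=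
    (hγ.comp_contDiffOn contDiffOn_chp).prodMk contDiffOn_fderiv_chp
  have h2 := (contDiff_pull (E := E6) (F := C3) l ((⊤ : ℕ∞) : WithTop ℕ∞)).comp_contDiffOn h1
  exact h2.congr fun z hz => chf_of γ hz

/-- near a point of `U` outside the chart `chf γ` vanishes -/
theorem chf_eventually {l : ℕ} {γ : C3 → Alt 3 l} (hc : HasCompactSupport γ) {z : E6}
    (hz : z ∈ X1.U) (hz' : z ∉ Ch) : ∀ᶠ w in 𝓝 z, chf γ w = 0 := by
  obtain ⟨R, hR⟩ := hc.isCompact.isBounded.exists_norm_le
  obtain ⟨i, hi0⟩ : ∃ i, z (hi i) = 0 := by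
    by_contra hcon
    push Not at hcon
    exact hz' hcon
  have hlo : z (lo i) ≠ 0 := by
    rcases (mem_U1 z).mp hz i with h | h
    · exact h
    · exact absurd hi0 h
  have hopen : IsOpen {w : E6 | R * ‖w (hi i)‖ < ‖w (lo i)‖} :=
    isOpen_lt (by fun_prop) (by fun_prop)
  have hmem : z ∈ {w : E6 | R * ‖w (hi i)‖ < ‖w (lo i)‖} := by
    show R * ‖z (hi i)‖ < ‖z (lo i)‖
    rw [hi0, norm_zero, mul_zero]
    exact norm_pos_iff.mpr hlo
  filter_upwards [hopen.mem_nhds hmem] with w hw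
  by_cases hw' : w ∈ Ch
  · rw [chf_of γ hw']
    have hγ : γ (chp w) = 0 := by
      by_contra hne
      have h1 : chp w ∈ tsupport γ := subset_tsupport γ hne
      have h2 := (norm_le_pi_norm (chp w) i).trans (hR _ h1)
      have h3 : chp w i = w (lo i) / w (hi i) := rfl
      rw [h3, norm_div, div_le_iff₀ (norm_pos_iff.mpr (hw' i))] at h2
      exact absurd hw (not_lt.mpr h2)
    rw [hγ]
    ext v
    rfl
  · exact chf_not γ hw'

/-- an alternating map which kills vertical vectors depends only on the classes of the vectors -/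
theorem alt_congr {N k : ℕ} (a : Alt N k) (P : (Fin N → ℂ) → Prop)
    (ha : ∀ (w : Fin k → Fin N → ℂ) (i : Fin k), P (w i) → a w = 0) (v v' : Fin k → Fin N → ℂ)
    (h : ∀ i, P (v i - v' i)) : a v = a v' := by
  classical
  have key : ∀ s : Finset (Fin k), a (fun i => if i ∈ s then v' i else v i) = a v := by
    intro s
    induction s using Finset.induction_on with
    | empty => simp
    | insert j s hj ih =>
      have h1 : (fun i => if i ∈ insert j s then v' i else v i) =
          Function.update (fun i => if i ∈ s then v' i else v i) j (v' j) := by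
        funext i
        by_cases hij : i = j
        · subst hij
          simp
        · rw [Function.update_of_ne hij]
          simp [hij]
      have h2 : (fun i => if i ∈ s then v' i else v i) =
          Function.update (fun i => if i ∈ s then v' i else v i) j (v j) := by
        funext i
        by_cases hij : i = j
        · subst hij
          simp [hj]
        · rw [Function.update_of_ne hij]
      have h3 : v' j = v j - (v j - v' j) := by abel
      rw [h1, h3, a.map_update_sub, ← h2, ih,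
        ha (Function.update (fun i => if i ∈ s then v' i else v i) j (v j - v' j)) j (by
          rw [Function.update_self]
          exact h j), sub_zero]
  have h4 := key Finset.univ
  simp only [Finset.mem_univ, if_true] at h4
  exact h4.symm

theorem chp_act {c : C3} (hc : ∀ j, c j ≠ 0) (z : E6) : chp (X1.act c z) = chp z := by
  funext i
  show X1.act c z (lo i) / X1.act c z (hi i) = z (lo i) / z (hi i)
  rw [act1_lo, act1_hi, mul_div_mul_left _ _ (hc i)]

theorem act_mem_Ch {c : C3} (hc : ∀ j, c j ≠ 0) (z : E6) : X1.act c z ∈ Ch ↔ z ∈ Ch := by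
  constructor
  · intro h i
    have := h i
    rw [act1_hi] at this
    exact right_ne_zero_of_mul this
  · intro h i
    rw [act1_hi]
    exact mul_ne_zero (hc i) (h i)

theorem chL_act {c : C3} (hc : ∀ j, c j ≠ 0) {z : E6} (hz : z ∈ Ch) (v : E6) :
    chL (X1.act c z) (X1.act c v) = chL z v := by
  funext i
  rw [chL_apply, chL_apply, act1_lo, act1_hi, act1_lo, act1_hi]
  have h1 := hc i
  have h2 : z (hi i) ≠ 0 := hz i
  field_simp

theorem chL_vert {z : E6} (hz : z ∈ Ch) {v : E6} (hv : X1.Vert z v) : chL z v = 0 := by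
  obtain ⟨a, rfl⟩ := (vert1_iff z v).mp hv
  funext i
  rw [chL_apply, act1_lo, act1_hi]
  have h2 : z (hi i) ≠ 0 := hz i
  show (z (hi i))⁻¹ * (a i * z (lo i)) - z (lo i) / z (hi i) ^ 2 * (a i * z (hi i)) = 0
  field_simp
  ring

theorem sigma_mem_Ch (x : C3) : X1.σ x ∈ Ch := by
  intro i
  rw [sigma1_hi]
  exact one_ne_zero

theorem chp_sigma (x : C3) : chp (X1.σ x) = x := by
  funext i
  show X1.σ x (lo i) / X1.σ x (hi i) = x i
  rw [sigma1_lo, sigma1_hi, div_one]

theorem inc1_lo (w : C3) (i : Fin 3) : inc1 w (lo i) = w i := by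
  rw [inc1_eq]
  fin_cases i <;> rfl

theorem inc1_hi (w : C3) (i : Fin 3) : inc1 w (hi i) = 0 := by
  rw [inc1_eq]
  fin_cases i <;> rfl

theorem chL_sigma (x w : C3) : chL (X1.σ x) (inc1 w) = w := by
  funext i
  rw [chL_apply, sigma1_lo, sigma1_hi, inc1_lo, inc1_hi]
  simp

theorem act_sigma_chp {z : E6} (hz : z ∈ Ch) : X1.act (fun i => z (hi i)) (X1.σ (chp z)) = z := by
  apply ext6
  · intro i
    rw [act1_lo, sigma1_lo]
    show z (hi i) * (z (lo i) / z (hi i)) = z (lo i)
    exact mul_div_cancel₀ _ (hz i)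
  · intro i
    rw [act1_hi, sigma1_hi, mul_one]

theorem basic_chart {k : ℕ} {η : E6 → Alt 6 k} (hη : X1.BasicOn X1.U η) {z : E6} (hz : z ∈ Ch) :
    η z = (Toric.pull X1.σ η (chp z)).compContinuousLinearMap (fderiv ℝ chp z) := by
  ext v
  rw [pull_sigma1, fderiv_chp hz]
  show η z v = η (X1.σ (chp z)) (fun i => inc1 (chL z (v i)))
  have hc : ∀ j, z (hi j) ≠ 0 := hz
  have h1 := hη.1 (X1.σ (chp z)) (sigma1_mem_U _) (fun i => z (hi i)) hc
    (fun i => X1.act (fun j => (z (hi j))⁻¹) (v i))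
  have h2 : (fun i => X1.act (fun j => z (hi j)) (X1.act (fun j => (z (hi j))⁻¹) (v i))) = v := by
    funext i
    rw [act1_act]
    have : (fun i => z (hi i) * (z (hi i))⁻¹) = fun _ => (1 : ℂ) := by
      funext i
      exact mul_inv_cancel₀ (hc i)
    rw [this, act1_one]
  rw [h2, act_sigma_chp hz] at h1
  rw [h1]
  refine alt_congr (η (X1.σ (chp z))) (fun w => X1.Vert (X1.σ (chp z)) w)
    (fun w i hw => hη.2 _ (sigma1_mem_U _) w i hw) _ _ fun i => ?_
  rw [vert1_iff]
  refine ⟨fun j => v i (hi j) / z (hi j), ?_⟩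
  apply ext6
  · intro j
    rw [act1_lo, sigma1_lo]
    show X1.act (fun j => (z (hi j))⁻¹) (v i) (lo j) - inc1 (chL z (v i)) (lo j) = _
    rw [act1_lo, inc1_lo, chL_apply]
    show _ = v i (hi j) / z (hi j) * (z (lo j) / z (hi j))
    have h3 := hc j
    field_simp
    ring
  · intro j
    rw [act1_hi, sigma1_hi]
    show X1.act (fun j => (z (hi j))⁻¹) (v i) (hi j) - inc1 (chL z (v i)) (hi j) = _
    rw [act1_hi, inc1_hi]
    ring

theorem cht : ChtStmt := by
  intro l γ hc hγ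
  refine ⟨?_, ⟨?_, ?_⟩, ?_, ?_, ?_, ?_, ?_, ?_⟩
  · intro z hz
    by_cases hz' : z ∈ Ch
    · exact ((continuousOn_chf_Ch hγ).continuousAt (isOpen_Ch.mem_nhds hz')).continuousWithinAt
    · have h1 := chf_eventually hc hz hz'
      have h2 : ContinuousAt (chf γ) z :=
        continuousAt_const.congr (h1.mono fun w hw => hw.symm)
      exact h2.continuousWithinAt
  · intro z hz c hcc v
    by_cases hz' : z ∈ Ch
    · rw [chf_of γ ((act_mem_Ch hcc z).mpr hz'), chf_of γ hz', fderiv_chp hz',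
        fderiv_chp ((act_mem_Ch hcc z).mpr hz'), chp_act hcc]
      show γ (chp z) (fun i => chL (X1.act c z) (X1.act c (v i))) =
        γ (chp z) (fun i => chL z (v i))
      simp only [chL_act hcc hz']
    · rw [chf_not γ hz', chf_not γ (fun h => hz' ((act_mem_Ch hcc z).mp h))]
      rfl
  · intro z hz v i hv
    by_cases hz' : z ∈ Ch
    · rw [chf_of γ hz', fderiv_chp hz']
      show γ (chp z) (fun i => chL z (v i)) = 0
      exact (γ (chp z)).map_coord_zero i (chL_vert hz' hv)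
    · rw [chf_not γ hz']
      rfl
  · intro z hz
    refine chf_not γ fun h => hz ?_
    rw [mem_U1]
    intro i
    exact Or.inr (h i)
  · intro x
    rw [pull_sigma1, chf_of γ (sigma_mem_Ch x), fderiv_chp (sigma_mem_Ch x), chp_sigma]
    ext v
    show γ x (fun i => chL (X1.σ x) (inc1 (v i))) = γ x v
    simp only [chL_sigma]
  · intro hs z hz
    by_cases hz' : z ∈ Ch
    · exact ((contDiffOn_chf_Ch hs).contDiffAt (isOpen_Ch.mem_nhds hz')).contDiffWithinAt
    · have h1 := chf_eventually hc hz hz'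
      have h2 : ContDiffAt ℝ ((⊤ : ℕ∞) : WithTop ℕ∞) (chf γ) z :=
        contDiffAt_const.congr_of_eventuallyEq h1
      exact h2.contDiffWithinAt
  · intro z hz h0
    rw [chf_of γ hz, h0]
    ext v
    rfl
  · intro k η hη z hz
    exact basic_chart hη hz
  · intro z hz u v
    rw [fderiv_chp hz]
    show chL z (u • v) = u • chL z v
    exact map_smul _ _ _

end Pool.Agent.SIQ.H7
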